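import Pool.Agent.H75.GG.Targets2

/-!
# Row SEE: the values of the seed
-/

set_option autoImplicit false
set_option linter.unusedVariables false

namespace Pool.Agent.H42.GG

open Finset Filter Pool.Agent.H6.NB Pool.Agent.H70.OQ Pool.Agent.H75.GS Pool.Agent.H75.GG

theorem pst_eq (c d : Σ n : ℕ, Xn n × Ys n 0)
    (h : pst c.1 c.2.1 c.2.2 = pst d.1 d.2.1 d.2.2) : c = d := by
  obtain ⟨n, x, z⟩ := c
  obtain ⟨m, x', z'⟩ := d
  have h1 : (List.ofFn x ++ List.ofFn z : List Bool) = List.ofFn x' ++ List.ofFn z' :=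
    (List.cons.inj h).2
  have hl := congrArg List.length h1
  simp only [List.length_append, List.length_ofFn] at hl
  have hnm : n = m := by omega
  subst hnm
  obtain ⟨h2, h3⟩ := List.append_inj h1 (by simp only [List.length_ofFn])
  rw [List.ofFn_injective h2, List.ofFn_injective h3]

theorem blk_eq (hCOD : Pool.Agent.H6.NB.T_COD)
    (c d : Σ s : List Bool, Fin (ns s) × VV (qs s))
    (h : blk c.1 c.2.1 c.2.2.1 (List.ofFn c.2.2.2) = blk d.1 d.2.1 d.2.2.1 (List.ofFn d.2.2.2)) :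
    c = d := by
  obtain ⟨s, i, f, v⟩ := c
  obtain ⟨s', i', f', v'⟩ := d
  have h1 := (List.cons.inj (List.cons.inj h).2).2
  obtain ⟨h2, h3, h4⟩ := hCOD.1 _ _ _ _ _ _ h1
  have h2' : s = s' := h2
  subst h2'
  have h3' : v = v' := List.ofFn_injective h3
  subst h3'
  have h5 : 2 * (i : ℕ) + f.toNat = 2 * (i' : ℕ) + f'.toNat := h4
  have h6 : (i : ℕ) = i' ∧ f = f' := by
    cases f <;> cases f' <;> simp only [Bool.toNat_true, Bool.toNat_false] at h5 <;>
      first
        | exact ⟨by omega, rfl⟩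
        | (exfalso; omega)
  obtain ⟨h7, rfl⟩ := h6
  rw [Fin.ext h7]

theorem pf_SEE (hNST : T_NST) (hCOD : Pool.Agent.H6.NB.T_COD) : T_SEE := by
  intro G ω
  have npk : ∀ n x z s, pst n x z ≠ key s := by
    intro n x z s h
    exact Bool.false_ne_true (List.cons.inj h).1
  have npb : ∀ n x z s i f v, pst n x z ≠ blk s i f v := by
    intro n x z s i f v h
    exact Bool.false_ne_true (List.cons.inj h).1
  have nkb : ∀ s s' i f v, key s ≠ blk s' i f v := by
    intro s s' i f v h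
    exact Bool.false_ne_true (List.cons.inj (List.cons.inj h).2).1
  refine ⟨?_, ?_, ?_, ?_, ?_⟩
  · intro n x z hn
    have h : ∃ c : Σ n : ℕ, Xn n × Ys n 0, G.n0 ≤ c.1 ∧ pst n x z = pst c.1 c.2.1 c.2.2 :=
      ⟨⟨n, x, z⟩, hn, rfl⟩
    have hc : h.choose = ⟨n, x, z⟩ := (pst_eq ⟨n, x, z⟩ h.choose h.choose_spec.2).symm
    have hk : ∀ c : Σ n : ℕ, Xn n × Ys n 0, c = ⟨n, x, z⟩ →
        tT (jn (cfS ω c.1) univ (cfT ω c.1)) c.2 = tT (jn (cfS ω n) univ (cfT ω n)) (x, z) := by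
      rintro _ rfl
      rfl
    unfold seed
    rw [dif_pos h]
    exact hk _ hc
  · intro n x z hn
    unfold seed
    rw [dif_neg, dif_neg, dif_neg]
    · rintro ⟨c, hc⟩
      exact npb _ _ _ _ _ _ _ hc
    · rintro ⟨s, hs⟩
      exact npk _ _ _ _ hs
    · rintro ⟨c, hc1, hc⟩
      have h1 := pst_eq ⟨n, x, z⟩ c hc
      rw [← h1] at hc1
      exact absurd hc1 (not_le.2 hn)
  · intro s
    have h : ∃ s', key s = key s' := ⟨s, rfl⟩
    have hc : h.choose = s := (List.cons.inj (List.cons.inj h.choose_spec).2).2.symm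
    unfold seed
    rw [dif_neg, dif_pos h]
    · exact congrArg (cfK ω) hc
    · rintro ⟨c, -, hc⟩
      exact npk _ _ _ _ hc.symm
  · intro s i v
    have h : ∃ c : Σ s : List Bool, Fin (ns s) × VV (qs s),
        blk s i v.1 (List.ofFn v.2) = blk c.1 c.2.1 c.2.2.1 (List.ofFn c.2.2.2) :=
      ⟨⟨s, i, v⟩, rfl⟩
    have hc : h.choose = ⟨s, i, v⟩ := (blk_eq hCOD ⟨s, i, v⟩ h.choose h.choose_spec).symm
    have hk : ∀ c : Σ s : List Bool, Fin (ns s) × VV (qs s), c = ⟨s, i, v⟩ →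
        cfP ω c.1 c.2.1 c.2.2 = cfP ω s i v := by
      rintro _ rfl
      rfl
    unfold seed
    rw [dif_neg, dif_neg, dif_pos h]
    · exact hk _ hc
    · rintro ⟨s', hs'⟩
      exact nkb _ _ _ _ _ hs'.symm
    · rintro ⟨c, -, hc⟩
      exact npb _ _ _ _ _ _ _ hc.symm
  · intro w hw
    by_contra hcon
    push Not at hcon
    obtain ⟨h1, h2, h3⟩ := hcon
    unfold seed at hw
    rw [dif_neg, dif_neg, dif_neg] at hw
    · exact Bool.false_ne_true hw
    · rintro ⟨c, hc⟩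
      exact h3 _ _ _ hc
    · rintro ⟨s, hs⟩
      exact h2 _ hs
    · rintro ⟨c, -, hc⟩
      exact h1 _ _ _ hc

end Pool.Agent.H42.GG
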