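import Pool.Agent.H75.GG.Targets2

/-!
# Row TRL: the cells of a stage
-/

set_option autoImplicit false

namespace Pool.Agent.H42.GG

open Finset Filter Pool.Agent.H6.NB Pool.Agent.H70.OQ Pool.Agent.H75.GS Pool.Agent.H75.GG

section

variable {G : Dat} (ω : Cfg G) (n : ℕ) (p : Wn n) (y : Spc G n)
  (κ : Om n (2 ^ G.aa n) → Bool) (P : Blk (fun s : Om n (2 ^ G.aa n) => ns s.1) fun s => qs s.1)

theorem put_inl : (put ω n p y κ P (.inl n) : Wn n × Spc G n) = (p, y) := by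
  show (if h : n = n then h ▸ ((p, y) : Wn n × Spc G n) else ω (.inl n)) = _
  rw [dif_pos rfl]

theorem put_inr (s : Om n (2 ^ G.aa n)) :
    (put ω n p y κ P (.inr s.1) : Bool × (Fin (ns s.1) → VV (qs s.1) → Bool)) = (κ s, P s) :=
  dif_pos s.2

theorem put_inl_ne {m : ℕ} (h : m ≠ n) : put ω n p y κ P (.inl m) = ω (.inl m) := by
  show (if h : m = n then h ▸ ((p, y) : Wn n × Spc G n) else ω (.inl m)) = _
  rw [dif_neg h]

theorem put_inr_ne {s : List Bool} (h : ¬ (n ^ 2 ≤ s.length ∧ s.length < n ^ 2 ^ G.aa n)) :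
    put ω n p y κ P (.inr s) = ω (.inr s) :=
  dif_neg h

end

theorem pf_TRL : T_TRL := by
  classical
  intro G ω n _ S hS f
  have hn : (Sum.inl n : ℕ ⊕ List Bool) ∈ S := (hS _).2 (Or.inl rfl)
  have hs : ∀ s : Om n (2 ^ G.aa n), (Sum.inr s.1 : ℕ ⊕ List Bool) ∈ S := fun s =>
    (hS _).2 (Or.inr ⟨s, rfl⟩)
  let F : ((Wn n × Spc G n) × (Om n (2 ^ G.aa n) → Bool) ×
      Blk (fun s : Om n (2 ^ G.aa n) => ns s.1) fun s => qs s.1) → ∀ i : S, Val G i :=
    fun c i => put ω n c.1.1 c.1.2 c.2.1 c.2.2 i.1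
  have hF : Function.Bijective F := by
    constructor
    · rintro ⟨⟨p, y⟩, κ, P⟩ ⟨⟨p', y'⟩, κ', P'⟩ h
      have h1 := congrFun h ⟨_, hn⟩
      have h1' : ((p, y) : Wn n × Spc G n) = (p', y') := by
        rw [← put_inl ω n p y κ P, ← put_inl ω n p' y' κ' P']
        exact h1
      have h2 : ∀ s : Om n (2 ^ G.aa n),
          ((κ s, P s) : Bool × (Fin (ns s.1) → VV (qs s.1) → Bool)) = (κ' s, P' s) := by
        intro s
        rw [← put_inr ω n p y κ P s, ← put_inr ω n p' y' κ' P' s]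
        exact congrFun h ⟨_, hs s⟩
      have h3 : κ = κ' := funext fun s => congrArg Prod.fst (h2 s)
      have h4 : P = P' := funext fun s => congrArg Prod.snd (h2 s)
      rw [h1', h3, h4]
    · intro τ
      refine ⟨((τ ⟨_, hn⟩ : Wn n × Spc G n),
        (fun s => (τ ⟨_, hs s⟩ : Bool × (Fin (ns s.1) → VV (qs s.1) → Bool)).1),
        fun s => (τ ⟨_, hs s⟩ : Bool × (Fin (ns s.1) → VV (qs s.1) → Bool)).2), ?_⟩
      funext ⟨i, hi⟩
      rcases (hS i).1 hi with h | ⟨s, h⟩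
      · subst h
        exact put_inl ω n _ _ _ _
      · subst h
        exact put_inr ω n _ _ _ _ s
  have hgl : ∀ c, glue S ω (F c) = put ω n c.1.1 c.1.2 c.2.1 c.2.2 := by
    intro c
    funext i
    by_cases hi : i ∈ S
    · exact dif_pos hi
    · refine (dif_neg hi).trans ?_
      rcases i with m | s
      · refine (put_inl_ne ω n _ _ _ _ ?_).symm
        rintro rfl
        exact hi hn
      · refine (put_inr_ne ω n _ _ _ _ ?_).symm
        intro h
        exact hi (hs ⟨s, h⟩)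
  have hSS : S = insert (Sum.inl n) ((univ : Finset (Om n (2 ^ G.aa n))).image
      fun s => (Sum.inr s.1 : ℕ ⊕ List Bool)) := by
    ext i
    rw [hS i, mem_insert, mem_image]
    constructor
    · rintro (h | ⟨s, h⟩)
      · exact Or.inl h
      · exact Or.inr ⟨s, mem_univ _, h.symm⟩
    · rintro (h | ⟨s, -, h⟩)
      · exact Or.inl h
      · exact Or.inr ⟨s, h.symm⟩
  have hw : ∀ c, ∏ i, wgt G i.1 (F c i) = 1 / ((Fintype.card (Wn n × Spc G n) : ℝ) *
      2 ^ Fintype.card (Om n (2 ^ G.aa n))) * WtB c.2.1 c.2.2 := by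
    intro c
    have h1 : ∏ i : S, wgt G i.1 (F c i) =
        ∏ i ∈ S, wgt G i (put ω n c.1.1 c.1.2 c.2.1 c.2.2 i) :=
      Finset.prod_coe_sort S fun i => wgt G i (put ω n c.1.1 c.1.2 c.2.1 c.2.2 i)
    rw [h1, hSS, prod_insert, prod_image]
    · have h2 : ∀ s : Om n (2 ^ G.aa n),
          wgt G (Sum.inr s.1) (put ω n c.1.1 c.1.2 c.2.1 c.2.2 (Sum.inr s.1)) =
          1 / 2 * ∏ i, mu (c.2.1 s) (qs s.1) (c.2.2 s i) := by
        intro s
        have h3 := put_inr ω n c.1.1 c.1.2 c.2.1 c.2.2 s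
        show 1 / 2 * ∏ i, mu (put ω n c.1.1 c.1.2 c.2.1 c.2.2 (Sum.inr s.1) :
          Bool × (Fin (ns s.1) → VV (qs s.1) → Bool)).1 (qs s.1)
          ((put ω n c.1.1 c.1.2 c.2.1 c.2.2 (Sum.inr s.1) :
          Bool × (Fin (ns s.1) → VV (qs s.1) → Bool)).2 i) = _
        rw [h3]
      rw [prod_congr rfl fun s _ => h2 s, prod_mul_distrib, prod_const, card_univ]
      show 1 / (Fintype.card (Wn n × Spc G n) : ℝ) * _ = _
      unfold WtB
      rw [one_div_pow]
      field_simp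
    · intro a _ b _ hab
      exact Subtype.ext (Sum.inr_injective hab)
    · rw [mem_image]
      rintro ⟨s, -, h⟩
      exact Sum.inr_ne_inl h
  rw [← Fintype.sum_bijective F hF (fun c => (1 / ((Fintype.card (Wn n × Spc G n) : ℝ) *
      2 ^ Fintype.card (Om n (2 ^ G.aa n))) * WtB c.2.1 c.2.2) *
      f (put ω n c.1.1 c.1.2 c.2.1 c.2.2)) _ (fun c => by rw [hw c, hgl c]),
    Fintype.sum_prod_type, Fintype.sum_prod_type, mul_sum]
  refine sum_congr rfl fun p _ => ?_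
  rw [mul_sum]
  refine sum_congr rfl fun y _ => ?_
  rw [Fintype.sum_prod_type, mul_sum]
  refine sum_congr rfl fun κ _ => ?_
  rw [mul_sum]
  refine sum_congr rfl fun P _ => ?_
  exact mul_assoc _ _ _

end Pool.Agent.H42.GG
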